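import Pool.Agent.Helper36.CV.StmtsW

set_option autoImplicit false

namespace Pool.Agent.Helper36.CV

open Complex

theorem t4_clamp_of_ge {x : ℝ} (h : 1 ≤ x) : clamp x = 1 := by
  unfold clamp
  rw [min_eq_left h]
  norm_num

theorem t4_clamp_of_le {x : ℝ} (h : x ≤ -1) : clamp x = -1 := by
  unfold clamp
  rw [max_eq_left]
  exact (min_le_right _ _).trans h

theorem t4_clamp_of_abs {x : ℝ} (h : |x| ≤ 1) : clamp x = x := by
  obtain ⟨h1, h2⟩ := abs_le.1 h
  unfold clamp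
  rw [min_eq_right h2, max_eq_right h1]

theorem t4_clamp_neg (x : ℝ) : clamp (-x) = -clamp x := by
  rcases le_total |x| 1 with h | h
  · rw [t4_clamp_of_abs h, t4_clamp_of_abs (by rwa [abs_neg])]
  · rcases le_abs.1 h with h1 | h1
    · rw [t4_clamp_of_ge h1, t4_clamp_of_le (by linarith)]
    · rw [t4_clamp_of_ge (x := -x) h1, t4_clamp_of_le (x := x) (by linarith)]
      norm_num

theorem t4_clamp_lip {z p : ℝ} (hp : |p| ≤ 1) : |clamp z - p| ≤ |z - p| := by
  obtain ⟨h1, h2⟩ := abs_le.1 hp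
  rcases le_total |z| 1 with h | h
  · rw [t4_clamp_of_abs h]
  · rcases le_abs.1 h with h3 | h3
    · rw [t4_clamp_of_ge h3, abs_of_nonneg (by linarith), abs_of_nonneg (by linarith)]
      linarith
    · rw [t4_clamp_of_le (x := z) (by linarith), abs_of_nonpos (by linarith),
        abs_of_nonpos (by linarith)]
      linarith

/-- the basic inequality -/
theorem t4_L {x y z : ℝ} (hx : x ≤ 1) (hy : 1 ≤ y) (hz : 1 ≤ z)
    (hI : 0 ≤ x ^ 2 + y ^ 2 + z ^ 2 - 2 * x * y * z - 1) :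
    1 - x ≤ Real.sqrt (x ^ 2 + y ^ 2 + z ^ 2 - 2 * x * y * z - 1) := by
  have hyz : 1 ≤ y * z := one_le_mul_of_one_le_of_one_le hy hz
  have hw : 0 ≤ (y ^ 2 - 1) * (z ^ 2 - 1) := by
    apply mul_nonneg <;> nlinarith
  have h1 : Real.sqrt ((y ^ 2 - 1) * (z ^ 2 - 1)) ≤ y * z - 1 := by
    rw [Real.sqrt_le_left (by linarith)]
    nlinarith [sq_nonneg (y - z)]
  have h2 : y * z - x ≤ Real.sqrt ((y ^ 2 - 1) * (z ^ 2 - 1)) +
      Real.sqrt (x ^ 2 + y ^ 2 + z ^ 2 - 2 * x * y * z - 1) := by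
    apply abs_le_of_sq_le_sq' _ (by positivity) |>.2
    have e1 := Real.sq_sqrt hw
    have e2 := Real.sq_sqrt hI
    have e3 := mul_nonneg (Real.sqrt_nonneg ((y ^ 2 - 1) * (z ^ 2 - 1)))
      (Real.sqrt_nonneg (x ^ 2 + y ^ 2 + z ^ 2 - 2 * x * y * z - 1))
    nlinarith
  linarith

theorem t4_HE1 {x y z : ℝ} (hx : |x| ≤ 1) (hy : 1 ≤ y)
    (hI : 0 ≤ x ^ 2 + y ^ 2 + z ^ 2 - 2 * x * y * z - 1) :
    |clamp z - x| ≤ Real.sqrt (x ^ 2 + y ^ 2 + z ^ 2 - 2 * x * y * z - 1) := by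
  obtain ⟨hx1, hx2⟩ := abs_le.1 hx
  rcases le_total |z| 1 with h | h
  · rw [t4_clamp_of_abs h]
    obtain ⟨hz1, hz2⟩ := abs_le.1 h
    apply Real.abs_le_sqrt
    have h1 : x * z ≤ 1 := by nlinarith
    nlinarith [mul_nonneg (sub_nonneg.2 hy) (sub_nonneg.2 h1)]
  · rcases le_abs.1 h with h3 | h3
    · rw [t4_clamp_of_ge h3, abs_of_nonneg (by linarith)]
      exact t4_L hx2 hy h3 hI
    · rw [t4_clamp_of_le (x := z) (by linarith), abs_of_nonpos (by linarith)]
      have e : (-x) ^ 2 + y ^ 2 + (-z) ^ 2 - 2 * (-x) * y * (-z) - 1 =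
        x ^ 2 + y ^ 2 + z ^ 2 - 2 * x * y * z - 1 := by ring
      have := t4_L (x := -x) (y := y) (z := -z) (by linarith) hy h3 (by rw [e]; exact hI)
      rw [e] at this
      linarith

theorem t4_HE {x y z : ℝ} (hx : |x| ≤ 1) (hy : 1 ≤ |y|)
    (hI : 0 ≤ x ^ 2 + y ^ 2 + z ^ 2 - 2 * x * y * z - 1) :
    |clamp z - x * clamp y| ≤ Real.sqrt (x ^ 2 + y ^ 2 + z ^ 2 - 2 * x * y * z - 1) := by
  rcases le_abs.1 hy with h | h
  · rw [t4_clamp_of_ge h, mul_one]
    exact t4_HE1 hx h hI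
  · have e : x ^ 2 + (-y) ^ 2 + (-z) ^ 2 - 2 * x * (-y) * (-z) - 1 =
        x ^ 2 + y ^ 2 + z ^ 2 - 2 * x * y * z - 1 := by ring
    have := t4_HE1 (x := x) (y := -y) (z := -z) hx h (by rw [e]; exact hI)
    rw [e, t4_clamp_neg] at this
    rw [t4_clamp_of_le (x := y) (by linarith)]
    rw [← abs_neg]
    have e2 : -(clamp z - x * -1) = -clamp z - x := by ring
    rw [e2]
    exact this

theorem t4_HH1 {x y z : ℝ} (hx : 1 ≤ x) (hy : 1 ≤ y)
    (hI : 0 ≤ x ^ 2 + y ^ 2 + z ^ 2 - 2 * x * y * z - 1)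
    (hI1 : x ^ 2 + y ^ 2 + z ^ 2 - 2 * x * y * z - 1 < 1) :
    |clamp z - 1| ≤ Real.sqrt (x ^ 2 + y ^ 2 + z ^ 2 - 2 * x * y * z - 1) := by
  rcases le_total |z| 1 with h | h
  · rw [t4_clamp_of_abs h]
    obtain ⟨hz1, hz2⟩ := abs_le.1 h
    rw [abs_of_nonpos (by linarith)]
    have e : z ^ 2 + x ^ 2 + y ^ 2 - 2 * z * x * y - 1 =
        x ^ 2 + y ^ 2 + z ^ 2 - 2 * x * y * z - 1 := by ring
    have := t4_L (x := z) (y := x) (z := y) hz2 hx hy (by rw [e]; exact hI)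
    rw [e] at this
    linarith
  · rcases le_abs.1 h with h3 | h3
    · rw [t4_clamp_of_ge h3]
      simp only [sub_self, abs_zero]
      exact Real.sqrt_nonneg _
    · exfalso
      have h4 : 0 < x * y * (-z) := by positivity
      nlinarith

theorem t4_HH {x y z : ℝ} (hx : 1 ≤ |x|) (hy : 1 ≤ |y|)
    (hI : 0 ≤ x ^ 2 + y ^ 2 + z ^ 2 - 2 * x * y * z - 1)
    (hI1 : x ^ 2 + y ^ 2 + z ^ 2 - 2 * x * y * z - 1 < 1) :
    |clamp z - clamp x * clamp y| ≤
      Real.sqrt (x ^ 2 + y ^ 2 + z ^ 2 - 2 * x * y * z - 1) := by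
  rcases le_abs.1 hx with h | h <;> rcases le_abs.1 hy with h' | h'
  · rw [t4_clamp_of_ge h, t4_clamp_of_ge h', mul_one]
    exact t4_HH1 h h' hI hI1
  · have e : x ^ 2 + (-y) ^ 2 + (-z) ^ 2 - 2 * x * (-y) * (-z) - 1 =
        x ^ 2 + y ^ 2 + z ^ 2 - 2 * x * y * z - 1 := by ring
    have := t4_HH1 (x := x) (y := -y) (z := -z) h h' (by rw [e]; exact hI) (by rw [e]; exact hI1)
    rw [e, t4_clamp_neg] at this
    rw [t4_clamp_of_ge h, t4_clamp_of_le (x := y) (by linarith), ← abs_neg]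
    have e2 : -(clamp z - 1 * -1) = -clamp z - 1 := by ring
    rw [e2]
    exact this
  · have e : (-x) ^ 2 + y ^ 2 + (-z) ^ 2 - 2 * (-x) * y * (-z) - 1 =
        x ^ 2 + y ^ 2 + z ^ 2 - 2 * x * y * z - 1 := by ring
    have := t4_HH1 (x := -x) (y := y) (z := -z) h h' (by rw [e]; exact hI) (by rw [e]; exact hI1)
    rw [e, t4_clamp_neg] at this
    rw [t4_clamp_of_ge h', t4_clamp_of_le (x := x) (by linarith), ← abs_neg]
    have e2 : -(clamp z - -1 * 1) = -clamp z - 1 := by ring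
    rw [e2]
    exact this
  · have e : (-x) ^ 2 + (-y) ^ 2 + z ^ 2 - 2 * (-x) * (-y) * z - 1 =
        x ^ 2 + y ^ 2 + z ^ 2 - 2 * x * y * z - 1 := by ring
    have := t4_HH1 (x := -x) (y := -y) (z := z) h h' (by rw [e]; exact hI) (by rw [e]; exact hI1)
    rw [e] at this
    rw [t4_clamp_of_le (x := y) (by linarith), t4_clamp_of_le (x := x) (by linarith)]
    have e2 : clamp z - -1 * -1 = clamp z - 1 := by ring
    rw [e2]
    exact this

theorem t4_re (A : Matrix (Fin 2) (Fin 2) ℝ) : (ph A).re = clamp (hx A) := by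
  simp [ph]

theorem t4_im (A : Matrix (Fin 2) (Fin 2) ℝ) : (ph A).im =
    ((SignType.sign (A 1 0) : SignType) : ℝ) * Real.sqrt (1 - clamp (hx A) ^ 2) := by
  simp [ph]

theorem t4_im_hyp {A : Matrix (Fin 2) (Fin 2) ℝ} (h : 1 ≤ |hx A|) : (ph A).im = 0 := by
  rw [t4_im]
  have : clamp (hx A) ^ 2 = 1 := by
    rcases le_abs.1 h with h1 | h1
    · rw [t4_clamp_of_ge h1]; norm_num
    · rw [t4_clamp_of_le (by linarith)]; norm_num
  rw [this]
  simp

theorem t4_EE {A B : Matrix (Fin 2) (Fin 2) ℝ} (hT2 : ST_T2) (hA : A.det = 1) (hB : B.det = 1)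
    (h1 : |hx A| < 1) (h2 : |hx B| < 1) (h0 : 0 ≤ frick A B) :
    |(ph (A * B)).re - (ph A * ph B).re| ≤ Real.sqrt (frick A B) ∧
    |(ph (A * B)).re - (ph A * ph B).re| * (2 * (|(ph A).im| * |(ph B).im|)) ≤ frick A B := by
  obtain ⟨hp, hn⟩ := hT2 A B hA hB h1 h2
  have hI : frick A B = hx A ^ 2 + hx B ^ 2 + hx (A * B) ^ 2 - 2 * hx A * hx B * hx (A * B) - 1 := rfl
  rw [Complex.mul_re, t4_re, t4_re, t4_re, t4_im, t4_im, t4_clamp_of_abs h1.le,
    t4_clamp_of_abs h2.le]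
  set x := hx A with hxd
  set y := hx B with hyd
  set z := hx (A * B) with hzd
  obtain ⟨hx1, hx2⟩ := abs_lt.1 h1
  obtain ⟨hy1, hy2⟩ := abs_lt.1 h2
  have hpx : 0 < 1 - x ^ 2 := by nlinarith
  have hpy : 0 < 1 - y ^ 2 := by nlinarith
  set a := Real.sqrt (1 - x ^ 2) with ha
  set b := Real.sqrt (1 - y ^ 2) with hb
  have ha0 : 0 < a := Real.sqrt_pos.2 hpx
  have hb0 : 0 < b := Real.sqrt_pos.2 hpy
  have ha2 : a ^ 2 = 1 - x ^ 2 := Real.sq_sqrt hpx.le
  have hb2 : b ^ 2 = 1 - y ^ 2 := Real.sq_sqrt hpy.le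
  have hab0 : 0 < a * b := mul_pos ha0 hb0
  have key : (z - x * y) ^ 2 = (a * b) ^ 2 + frick A B := by
    rw [hI, mul_pow, ha2, hb2]; ring
  -- the two sign cases
  have main : ∀ p : ℝ, ∀ σ : ℝ, (σ = 1 ∨ σ = -1) → p = x * y - σ * (a * b) →
      0 < σ * (x * y - z) → |clamp z - p| ≤ Real.sqrt (frick A B) ∧
      |clamp z - p| * (2 * (a * b)) ≤ frick A B := by
    intro p σ hσ hp hs
    have hσ2 : σ ^ 2 = 1 := by rcases hσ with h | h <;> rw [h] <;> norm_num
    have hp1 : |p| ≤ 1 := by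
      rw [abs_le_one_iff_mul_self_le_one, hp]
      have : (x * y - σ * (a * b)) * (x * y - σ * (a * b)) + (x * b + σ * (y * a)) ^ 2 =
          (x ^ 2 + a ^ 2) * (y ^ 2 + b ^ 2) + (σ ^ 2 - 1) * ((a * b) ^ 2 + (y * a) ^ 2) := by ring
      rw [hσ2, ha2, hb2] at this
      nlinarith [sq_nonneg (x * b + σ * (y * a))]
    have hlip := t4_clamp_lip (z := z) hp1
    set q := σ * (x * y - z) with hq
    have hq2 : q ^ 2 = (a * b) ^ 2 + frick A B := by
      rw [hq, mul_pow, hσ2, ← key]; ring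
    have hqs : a * b ≤ q := by
      apply le_of_sq_le_sq _ hs.le
      rw [hq2]; linarith
    have habs : |z - p| = q - a * b := by
      have : z - p = -σ * (q - a * b) := by
        rw [hp, hq]
        have : -σ * (σ * (x * y - z) - a * b) = -(σ ^ 2) * (x * y - z) + σ * (a * b) := by ring
        rw [this, hσ2]; ring
      rw [this, abs_mul, abs_neg]
      have : |σ| = 1 := by rcases hσ with h | h <;> rw [h] <;> norm_num
      rw [this, one_mul, abs_of_nonneg (by linarith)]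
    rw [habs] at hlip
    constructor
    · refine hlip.trans ?_
      apply Real.le_sqrt_of_sq_le
      nlinarith
    · have : |clamp z - p| * (2 * (a * b)) ≤ (q - a * b) * (2 * (a * b)) :=
        mul_le_mul_of_nonneg_right hlip (by positivity)
      refine this.trans ?_
      nlinarith
  -- signs
  have hne : z ≠ x * y := by
    intro h
    rw [h] at key
    have : (0 : ℝ) = (a * b) ^ 2 + frick A B := by
      rw [← key]; ring
    nlinarith [pow_pos hab0 2]
  have habsim : |((SignType.sign (A 1 0) : SignType) : ℝ) * a| *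
      |((SignType.sign (B 1 0) : SignType) : ℝ) * b| ≤ a * b := by
    have hs : ∀ t : ℝ, |((SignType.sign t : SignType) : ℝ)| ≤ 1 := by
      intro t
      rcases lt_trichotomy t 0 with h | h | h
      · rw [sign_neg h]; simp
      · rw [h, sign_zero]; simp
      · rw [sign_pos h]; simp
    rw [abs_mul, abs_mul, abs_of_pos ha0, abs_of_pos hb0]
    have h3 := hs (A 1 0)
    have h4 := hs (B 1 0)
    have h5 : |((SignType.sign (A 1 0) : SignType) : ℝ)| * a ≤ a := by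
      nlinarith
    have h6 : |((SignType.sign (B 1 0) : SignType) : ℝ)| * b ≤ b := by
      nlinarith
    exact mul_le_mul h5 h6 (by positivity) ha0.le
  have hfin : ∀ σ : ℝ, (σ = 1 ∨ σ = -1) → 0 < σ * (x * y - z) →
      ((SignType.sign (A 1 0) : SignType) : ℝ) * a * (((SignType.sign (B 1 0) : SignType) : ℝ) * b) =
        σ * (a * b) →
      |clamp z - (x * y - ((SignType.sign (A 1 0) : SignType) : ℝ) * a *
        (((SignType.sign (B 1 0) : SignType) : ℝ) * b))| ≤ Real.sqrt (frick A B) ∧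
      |clamp z - (x * y - ((SignType.sign (A 1 0) : SignType) : ℝ) * a *
        (((SignType.sign (B 1 0) : SignType) : ℝ) * b))| *
        (2 * (|((SignType.sign (A 1 0) : SignType) : ℝ) * a| *
          |((SignType.sign (B 1 0) : SignType) : ℝ) * b|)) ≤ frick A B := by
    intro σ hσ hs he
    obtain ⟨m1, m2⟩ := main _ σ hσ rfl hs
    rw [he]
    refine ⟨m1, ?_⟩
    refine le_trans ?_ m2
    apply mul_le_mul_of_nonneg_left _ (abs_nonneg _)
    linarith
  rcases lt_or_gt_of_ne hne with h | h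
  · have h3 := hp.2 h
    apply hfin 1 (Or.inl rfl) (by linarith)
    rcases mul_pos_iff.1 h3 with ⟨h4, h5⟩ | ⟨h4, h5⟩
    · rw [sign_pos h4, sign_pos h5]; simp
    · rw [sign_neg h4, sign_neg h5]; simp
  · have h3 := hn.2 h
    apply hfin (-1) (Or.inr rfl) (by linarith)
    rcases mul_neg_iff.1 h3 with ⟨h4, h5⟩ | ⟨h4, h5⟩
    · rw [sign_pos h4, sign_neg h5]; simp
    · rw [sign_neg h4, sign_pos h5]; simp

theorem st_T4 (hT2 : ST_T2) : ST_T4 := by
  intro A B hA hB h0 h1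
  by_cases hAe : |hx A| < 1
  · by_cases hBe : |hx B| < 1
    · exact t4_EE hT2 hA hB hAe hBe h0
    · have hBh := not_lt.1 hBe
      rw [t4_im_hyp hBh, Complex.mul_re, t4_im_hyp hBh, t4_re, t4_re, t4_re,
        t4_clamp_of_abs hAe.le]
      simp only [mul_zero, sub_zero, abs_zero]
      exact ⟨t4_HE hAe.le hBh h0, h0⟩
  · have hAh := not_lt.1 hAe
    by_cases hBe : |hx B| < 1
    · rw [t4_im_hyp hAh, Complex.mul_re, t4_im_hyp hAh, t4_re, t4_re, t4_re,
        t4_clamp_of_abs hBe.le]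
      simp only [zero_mul, mul_zero, sub_zero, abs_zero]
      have e : frick A B = hx B ^ 2 + hx A ^ 2 + hx (A * B) ^ 2 -
          2 * hx B * hx A * hx (A * B) - 1 := by unfold frick; ring
      have := t4_HE (x := hx B) (y := hx A) (z := hx (A * B)) hBe.le hAh (by rw [← e]; exact h0)
      rw [← e, mul_comm] at this
      exact ⟨this, h0⟩
    · have hBh := not_lt.1 hBe
      rw [t4_im_hyp hBh, Complex.mul_re, t4_im_hyp hBh, t4_re, t4_re, t4_re]
      simp only [mul_zero, sub_zero, abs_zero]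
      exact ⟨t4_HH hAh hBh h0 h1, h0⟩

end Pool.Agent.Helper36.CV
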