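import Pool.Agent.Helper36.CV.StmtsW

set_option autoImplicit false

namespace Pool.Agent.Helper36.CV

open Complex

theorem t6_clamp_of_ge {x : ℝ} (h : 1 ≤ x) : clamp x = 1 := by
  unfold clamp
  rw [min_eq_left h]
  norm_num

theorem t6_clamp_of_le {x : ℝ} (h : x ≤ -1) : clamp x = -1 := by
  unfold clamp
  rw [max_eq_left]
  exact (min_le_right _ _).trans h

theorem t6_clamp_of_abs {x : ℝ} (h : |x| ≤ 1) : clamp x = x := by
  obtain ⟨h1, h2⟩ := abs_le.1 h
  unfold clamp
  rw [min_eq_right h2, max_eq_right h1]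

theorem t6_clamp_cont : Continuous clamp := by
  unfold clamp
  fun_prop

theorem t6_re (A : Matrix (Fin 2) (Fin 2) ℝ) : (ph A).re = clamp (hx A) := by
  simp [ph]

theorem t6_im (A : Matrix (Fin 2) (Fin 2) ℝ) : (ph A).im =
    ((SignType.sign (A 1 0) : SignType) : ℝ) * Real.sqrt (1 - clamp (hx A) ^ 2) := by
  simp [ph]

theorem t6_abs_of_zero {A : Matrix (Fin 2) (Fin 2) ℝ} (hA : A.det = 1) (h : A 1 0 = 0) :
    1 ≤ |hx A| := by
  rw [Matrix.det_fin_two, h, mul_zero, sub_zero] at hA
  unfold hx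
  rw [Matrix.trace_fin_two]
  rw [← sq_le_sq₀ (by norm_num) (abs_nonneg _), sq_abs]
  nlinarith [sq_nonneg (A 0 0 - A 1 1)]

theorem t6_sqrt_zero {x : ℝ} (h : 1 ≤ |x|) : Real.sqrt (1 - clamp x ^ 2) = 0 := by
  have : clamp x ^ 2 = 1 := by
    rcases le_abs.1 h with h1 | h1
    · rw [t6_clamp_of_ge h1]; norm_num
    · rw [t6_clamp_of_le (by linarith)]; norm_num
  rw [this]
  simp

theorem t6_sign_abs (t : ℝ) : |((SignType.sign t : SignType) : ℝ)| ≤ 1 := by
  rcases lt_trichotomy t 0 with h | h | h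
  · rw [sign_neg h]; simp
  · rw [h, sign_zero]; simp
  · rw [sign_pos h]; simp

/-- continuity of `sign a * s` -/
theorem t6_sign_cont (a s : ℝ → ℝ) (ha : Continuous a) (hs : Continuous s)
    (h : ∀ E, a E = 0 → s E = 0) :
    Continuous (fun E => ((SignType.sign (a E) : SignType) : ℝ) * s E) := by
  rw [continuous_iff_continuousAt]
  intro E0
  rcases lt_trichotomy (a E0) 0 with h0 | h0 | h0
  · have he : (fun E => -(s E)) =ᶠ[nhds E0]
        (fun E => ((SignType.sign (a E) : SignType) : ℝ) * s E) := by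
      filter_upwards [ha.continuousAt.eventually_lt_const h0] with E hE
      rw [sign_neg hE]; simp
    exact (hs.neg.continuousAt).congr he
  · unfold ContinuousAt
    have hz : ((SignType.sign (a E0) : SignType) : ℝ) * s E0 = 0 := by rw [h E0 h0, mul_zero]
    simp only [hz]
    apply squeeze_zero_norm (a := fun E => |s E|)
    · intro E
      rw [Real.norm_eq_abs, abs_mul]
      exact mul_le_of_le_one_left (abs_nonneg _) (t6_sign_abs _)
    · have := (hs.abs).tendsto E0
      rw [h E0 h0, abs_zero] at this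
      exact this
  · have he : s =ᶠ[nhds E0]
        (fun E => ((SignType.sign (a E) : SignType) : ℝ) * s E) := by
      filter_upwards [ha.continuousAt.eventually_const_lt h0] with E hE
      rw [sign_pos hE]; simp
    exact (hs.continuousAt).congr he

theorem t6_M_cont (l : ℝ) (n : ℕ) : Continuous (fun E => M l E n) := by
  induction n using Nat.strong_induction_on with
  | _ n ih =>
    match n, ih with
    | 0, _ => exact continuous_const
    | 1, _ =>
      apply continuous_matrix
      intro i j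
      fin_cases i <;> fin_cases j <;> simp [M] <;> fun_prop
    | (k + 2), ih =>
      have h1 := ih k (by omega)
      have h2 := ih (k + 1) (by omega)
      exact h1.matrix_mul h2

theorem t6_ph_cont (A : ℝ → Matrix (Fin 2) (Fin 2) ℝ) (hA : Continuous A)
    (hdet : ∀ E, (A E).det = 1) : Continuous (fun E => ph (A E)) := by
  have hxc : Continuous (fun E => hx (A E)) := by
    unfold hx
    exact (hA.matrix_trace).div_const 2
  have hc : Continuous (fun E => clamp (hx (A E))) := t6_clamp_cont.comp hxc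
  have hs : Continuous (fun E => Real.sqrt (1 - clamp (hx (A E)) ^ 2)) :=
    Real.continuous_sqrt.comp (continuous_const.sub (hc.pow 2))
  have ha : Continuous (fun E => (A E) 1 0) := hA.matrix_elem 1 0
  have him := t6_sign_cont (fun E => (A E) 1 0) (fun E => Real.sqrt (1 - clamp (hx (A E)) ^ 2))
    ha hs (fun E hE => t6_sqrt_zero (t6_abs_of_zero (hdet E) hE))
  unfold ph
  exact (Complex.continuous_ofReal.comp hc).add
    ((Complex.continuous_ofReal.comp him).mul continuous_const)

/-- the number whose argument is `D` -/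
noncomputable def t6_w (l : ℝ) (n : ℕ) (E : ℝ) : ℂ :=
  ph (M l E (n + 2)) * (starRingEnd ℂ) (ph (M l E n) * ph (M l E (n + 1)))

theorem t6_w_norm (hT1 : ST_T1) (hT5 : ST_T5) (l : ℝ) (n : ℕ) (E : ℝ) : ‖t6_w l n E‖ = 1 := by
  unfold t6_w
  have h : ∀ k, ‖ph (M l E k)‖ = 1 := by
    intro k
    have hd := (hT1 l E k).2.2.1
    exact (hT5 _ _ hd hd).2.1
  rw [norm_mul, RCLike.norm_conj, norm_mul, h, h, h]
  norm_num

theorem t6_w_re (hT1 : ST_T1) (hT3 : ST_T3) (l : ℝ) (hl : |l| ≤ 1 / 100) (n : ℕ) (E : ℝ) :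
    1 - |l| / 2 ≤ (t6_w l n E).re := by
  obtain ⟨_, _, hd, hf⟩ := hT1 l E n
  obtain ⟨_, _, hd', _⟩ := hT1 l E (n + 1)
  have h0 : 0 ≤ frick (M l E n) (M l E (n + 1)) := by rw [hf]; positivity
  have h1 : frick (M l E n) (M l E (n + 1)) < 1 := by
    rw [hf]
    have : l ^ 2 = |l| ^ 2 := (sq_abs l).symm
    rw [this]
    nlinarith [abs_nonneg l]
  have h := hT3 (M l E n) (M l E (n + 1)) hd hd' h0 h1
  have hs : Real.sqrt (frick (M l E n) (M l E (n + 1))) = |l| / 2 := by
    rw [hf]
    have : l ^ 2 / 4 = (|l| / 2) ^ 2 := by rw [div_pow, sq_abs]; norm_num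
    rw [this, Real.sqrt_sq (by positivity)]
  rw [hs] at h
  exact h

theorem t6_D_eq (l : ℝ) (n : ℕ) (E : ℝ) : D l n E = Complex.arg (t6_w l n E) := rfl

theorem t6_D_cont (hT1 : ST_T1) (hT3 : ST_T3) (l : ℝ) (hl : |l| ≤ 1 / 100) (n : ℕ) :
    Continuous (D l n) := by
  have hc : ∀ k, Continuous (fun E => ph (M l E k)) := fun k =>
    t6_ph_cont _ (t6_M_cont l k) (fun E => (hT1 l E k).2.2.1)
  have hw : Continuous (t6_w l n) :=
    (hc (n + 2)).mul (Complex.continuous_conj.comp ((hc n).mul (hc (n + 1))))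
  rw [continuous_iff_continuousAt]
  intro E
  have hre := t6_w_re hT1 hT3 l hl n E
  have hmem : t6_w l n E ∈ Complex.slitPlane := by
    left
    linarith [abs_nonneg l]
  have := (Complex.continuousAt_arg hmem).comp (f := t6_w l n) hw.continuousAt
  exact this

theorem t6_cos_small {x : ℝ} (hx0 : 0 ≤ x) (hx : x ≤ 1 / 10) :
    Real.cos (101 / 100 * x) ≤ 1 - x ^ 2 / 2 := by
  have h1 : |101 / 100 * x| ≤ 1 := by rw [abs_of_nonneg (by positivity)]; linarith
  have h2 := (abs_le.1 (Real.cos_bound h1)).2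
  rw [abs_of_nonneg (by positivity : 0 ≤ 101 / 100 * x)] at h2
  have h3 : x ^ 2 ≤ 1 / 100 := by nlinarith
  have h4 : x ^ 4 ≤ x ^ 2 / 100 := by nlinarith [sq_nonneg x]
  nlinarith [sq_nonneg x]

theorem t6_D_bound (hT1 : ST_T1) (hT3 : ST_T3) (hT5 : ST_T5) (l : ℝ) (hl : |l| ≤ 1 / 100) (n : ℕ)
    (E : ℝ) : |D l n E| ≤ 101 / 100 * Real.sqrt |l| := by
  rw [t6_D_eq]
  set w := t6_w l n E with hw
  have hn : ‖w‖ = 1 := t6_w_norm hT1 hT5 l n E
  have hre := t6_w_re hT1 hT3 l hl n E
  have hcos : Real.cos |Complex.arg w| = w.re := by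
    rw [Real.cos_abs]
    have := Complex.cos_arg (x := w) (by intro h; rw [h, norm_zero] at hn; norm_num at hn)
    rw [this, hn, div_one]
  by_contra hcon
  push Not at hcon
  have hpi : |Complex.arg w| ≤ Real.pi := Complex.abs_arg_le_pi w
  have hs0 := Real.sqrt_nonneg |l|
  have hlt := Real.cos_lt_cos_of_nonneg_of_le_pi (x := 101 / 100 * Real.sqrt |l|)
    (y := |Complex.arg w|) (by positivity) hpi hcon
  have hs1 : Real.sqrt |l| ≤ 1 / 10 := by
    rw [Real.sqrt_le_left (by norm_num)]
    norm_num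
    linarith
  have h2 := t6_cos_small hs0 hs1
  have hs2 : Real.sqrt |l| ^ 2 = |l| := Real.sq_sqrt (abs_nonneg l)
  rw [hs2] at h2
  rw [hcos] at hlt
  linarith

theorem t6_exp_arccos (y : ℝ) : Complex.exp ((Real.arccos y : ℂ) * I) =
    (clamp y : ℂ) + ((Real.sqrt (1 - clamp y ^ 2) : ℝ) : ℂ) * I := by
  rw [Complex.exp_mul_I, ← Complex.ofReal_cos, ← Complex.ofReal_sin, Real.sin_arccos]
  rcases le_total |y| 1 with h | h
  · obtain ⟨h1, h2⟩ := abs_le.1 h
    rw [t6_clamp_of_abs h, Real.cos_arccos h1 h2]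
  · rcases le_abs.1 h with h1 | h1
    · rw [t6_clamp_of_ge h1, Real.arccos_of_one_le h1]
      have : Real.sqrt (1 - y ^ 2) = 0 := by
        apply Real.sqrt_eq_zero_of_nonpos
        nlinarith
      rw [this]; simp
    · rw [t6_clamp_of_le (by linarith), Real.arccos_of_le_neg_one (by linarith)]
      have : Real.sqrt (1 - y ^ 2) = 0 := by
        apply Real.sqrt_eq_zero_of_nonpos
        nlinarith
      rw [this]; simp

theorem t6_exp (hT1 : ST_T1) (hT5 : ST_T5) (l : ℝ) (n : ℕ) (E : ℝ) :
    Complex.exp ((Th l n E : ℂ) * I) = ph (M l E n) := by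
  induction n using Nat.strong_induction_on with
  | _ n ih =>
    match n, ih with
    | 0, _ =>
      have hh : hx (M l E 0) = 1 := by simp [hx, M, Matrix.trace_fin_two]
      apply Complex.ext
      · rw [t6_re, hh, t6_clamp_of_ge le_rfl]; simp [Th]
      · rw [t6_im, hh, t6_clamp_of_ge le_rfl]; simp [Th]
    | 1, _ =>
      have hh : hx (M l E 1) = E / 2 := by simp [hx, M, Matrix.trace_fin_two]
      have h10 : (M l E 1) 1 0 = 1 := by simp [M]
      have : Th l 1 E = Real.arccos (E / 2) := rfl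
      rw [this, t6_exp_arccos]
      unfold ph
      rw [hh, h10, sign_pos one_pos]
      simp
    | (k + 2), ih =>
      have h1 := ih k (by omega)
      have h2 := ih (k + 1) (by omega)
      have hTh : Th l (k + 2) E = Th l (k + 1) E + Th l k E + D l k E := rfl
      have hn : ‖t6_w l k E‖ = 1 := t6_w_norm hT1 hT5 l k E
      have hD : Complex.exp ((D l k E : ℂ) * I) = t6_w l k E := by
        rw [t6_D_eq]
        have := Complex.norm_mul_exp_arg_mul_I (t6_w l k E)
        rw [hn] at this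
        simpa using this
      rw [hTh]
      push_cast
      rw [add_mul, add_mul, Complex.exp_add, Complex.exp_add, h1, h2, hD]
      unfold t6_w
      have hnorm : ∀ j, ‖ph (M l E j)‖ = 1 := by
        intro j
        have hd := (hT1 l E j).2.2.1
        exact (hT5 _ _ hd hd).2.1
      have hu : (ph (M l E k) * ph (M l E (k + 1))) *
          (starRingEnd ℂ) (ph (M l E k) * ph (M l E (k + 1))) = 1 := by
        rw [Complex.mul_conj, Complex.normSq_eq_norm_sq, norm_mul, hnorm, hnorm]
        norm_num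
      linear_combination (ph (M l E (k + 2))) * hu

theorem t6_Th_cont (hT1 : ST_T1) (hT3 : ST_T3) (l : ℝ) (hl : |l| ≤ 1 / 100) (n : ℕ) :
    Continuous (Th l n) := by
  induction n using Nat.strong_induction_on with
  | _ n ih =>
    match n, ih with
    | 0, _ => exact continuous_const
    | 1, _ =>
      have : Th l 1 = fun E => Real.arccos (E / 2) := rfl
      rw [this]
      exact Real.continuous_arccos.comp (continuous_id.div_const 2)
    | (k + 2), ih =>
      have h1 := ih k (by omega)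
      have h2 := ih (k + 1) (by omega)
      have : Th l (k + 2) = fun E => Th l (k + 1) E + Th l k E + D l k E := rfl
      rw [this]
      exact (h2.add h1).add (t6_D_cont hT1 hT3 l hl k)

theorem st_T6 (hT1 : ST_T1) (hT3 : ST_T3) (hT5 : ST_T5) : ST_T6 := by
  intro l _ hl n
  refine ⟨t6_Th_cont hT1 hT3 l hl n, t6_D_cont hT1 hT3 l hl n, fun E => ?_⟩
  have he := t6_exp hT1 hT5 l n E
  refine ⟨he, t6_D_bound hT1 hT3 hT5 l hl n E, ?_⟩
  have h1 := congrArg Complex.re he
  rw [t6_re, Complex.exp_ofReal_mul_I_re] at h1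
  rw [h1]
  have h2 := (hT1 l E n).2.1
  unfold hx
  rw [h2]
  congr 1
  ring

end Pool.Agent.Helper36.CV
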