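import Pool.Agent.Helper36.CV.StmtsW

set_option autoImplicit false

namespace Pool.Agent.Helper36.CV

open Complex Filter Topology

noncomputable section

theorem w4_open : IsOpen {z : ℂ | 0 < z.im} := isOpen_lt continuous_const Complex.continuous_im

theorem w4_sub : {z : ℂ | 0 < z.im} ⊆ {z : ℂ | 0 ≤ z.im} := by
  intro z hz
  simp only [Set.mem_ofPred_eq] at hz ⊢
  exact hz.le

theorem w4_growth (f : ℂ → ℂ) (hf : ContinuousOn f {z | 0 ≤ z.im})
    (hinf : Tendsto (fun z : ℂ => f z - I / Real.pi * Complex.log z)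
      (cocompact ℂ ⊓ 𝓟 {z | 0 ≤ z.im}) (𝓝 1)) :
    ∃ A : ℝ, ∀ z : ℂ, 0 ≤ z.im → ‖f z‖ ≤ A + Real.log (1 + ‖z‖) := by
  have h1 : ∀ᶠ z in cocompact ℂ ⊓ 𝓟 {z : ℂ | 0 ≤ z.im},
      ‖(f z - I / Real.pi * Complex.log z) - 1‖ < 1 := by
    have := (Metric.tendsto_nhds.1 hinf) 1 one_pos
    filter_upwards [this] with z hz
    rwa [dist_eq_norm] at hz
  rw [eventually_inf_principal] at h1
  rw [← Metric.cobounded_eq_cocompact] at h1
  have h1' := h1
  rw [(hasBasis_cobounded_norm (E := ℂ)).eventually_iff] at h1'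
  obtain ⟨R, _, hR⟩ := h1'
  -- compact part
  have hcomp : IsCompact ({z : ℂ | 0 ≤ z.im} ∩ Metric.closedBall 0 (max R 1)) := by
    apply IsCompact.inter_left (isCompact_closedBall _ _)
    exact isClosed_le continuous_const Complex.continuous_im
  obtain ⟨B, hB⟩ := hcomp.exists_bound_of_continuousOn (hf.mono Set.inter_subset_left)
  refine ⟨max B 3, fun z hz => ?_⟩
  have hlog0 : 0 ≤ Real.log (1 + ‖z‖) := Real.log_nonneg (by linarith [norm_nonneg z])
  rcases le_total ‖z‖ (max R 1) with hzR | hzR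
  · have := hB z ⟨hz, by simpa [Metric.mem_closedBall, dist_eq_norm] using hzR⟩
    linarith [le_max_left B 3]
  · have hR1 : R ≤ ‖z‖ := (le_max_left _ _).trans hzR
    have hz1 : 1 ≤ ‖z‖ := (le_max_right _ _).trans hzR
    have h2 := hR (show z ∈ {x : ℂ | R ≤ ‖x‖} from hR1) hz
    have h3 : ‖Complex.log z‖ ≤ Real.log ‖z‖ + Real.pi := by
      refine (Complex.norm_le_abs_re_add_abs_im _).trans ?_
      rw [Complex.log_re, Complex.log_im, abs_of_nonneg (Real.log_nonneg hz1)]
      linarith [Complex.abs_arg_le_pi z]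
    have h4 : ‖I / (Real.pi : ℂ) * Complex.log z‖ ≤ Real.log ‖z‖ + 1 := by
      rw [norm_mul, norm_div, Complex.norm_I, Complex.norm_real, Real.norm_eq_abs,
        abs_of_pos Real.pi_pos, one_div]
      have hpi : (1 : ℝ) ≤ Real.pi := by linarith [Real.pi_gt_three]
      have hlog : 0 ≤ Real.log ‖z‖ := Real.log_nonneg hz1
      calc Real.pi⁻¹ * ‖Complex.log z‖ ≤ Real.pi⁻¹ * (Real.log ‖z‖ + Real.pi) := by
            apply mul_le_mul_of_nonneg_left h3 (by positivity)
        _ = Real.pi⁻¹ * Real.log ‖z‖ + 1 := by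
            rw [mul_add, inv_mul_cancel₀ Real.pi_pos.ne']
        _ ≤ 1 * Real.log ‖z‖ + 1 := by
            have := mul_le_mul_of_nonneg_right (inv_le_one_of_one_le₀ hpi) hlog
            linarith
        _ = Real.log ‖z‖ + 1 := by ring
    have h5 : f z = ((f z - I / Real.pi * Complex.log z) - 1) + 1 +
        I / (Real.pi : ℂ) * Complex.log z := by ring
    have h6 : ‖f z‖ ≤ ‖(f z - I / Real.pi * Complex.log z) - 1‖ + ‖(1 : ℂ)‖ +
        ‖I / (Real.pi : ℂ) * Complex.log z‖ := by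
      conv_lhs => rw [h5]
      exact norm_add₃_le
    rw [norm_one] at h6
    have h7 : Real.log ‖z‖ ≤ Real.log (1 + ‖z‖) := by
      apply Real.log_le_log (by linarith) (by linarith)
    linarith [le_max_right B 3]

theorem w4_bound (y F Om : ℝ) (c : ℝ) (hF : 0 < F) (h : |y - F * Om| ≤ c) :
    |y / (Real.pi * F) - Om / Real.pi| ≤ c / (Real.pi * F) := by
  have hp := Real.pi_pos
  have : y / (Real.pi * F) - Om / Real.pi = (y - F * Om) / (Real.pi * F) := by
    field_simp
  rw [this, abs_div, abs_of_pos (by positivity : 0 < Real.pi * F)]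
  exact div_le_div_of_nonneg_right h (by positivity)

theorem st_W4 (hW2 : ST_W2) (hW3 : ST_W3) (hT12 : ST_T12) : ST_W4 := by
  intro l hl0 hl1
  have hpi := Real.pi_pos
  obtain ⟨_, _, _, _, hOmR, hOmL, hT, _, _, _⟩ := hT12 l hl0 hl1
  have hex : ∀ n : ℕ, ∃ f : ℂ → ℂ,
      ContinuousOn f {z | 0 ≤ z.im} ∧ DifferentiableOn ℂ f {z | 0 < z.im} ∧
      (∀ z : ℂ, 0 < z.im → 0 < (f z).im) ∧
      (∀ x : ℝ, f x = ((1 - Th l (n + 1) x / (Real.pi * Nat.fib (n + 1)) : ℝ) : ℂ) +
        ((tau l (n + 1) x / (Real.pi * Nat.fib (n + 1)) : ℝ) : ℂ) * I) ∧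
      Tendsto (fun z : ℂ => f z - I / Real.pi * Complex.log z)
        (cocompact ℂ ⊓ 𝓟 {z | 0 ≤ z.im}) (𝓝 1) := fun n => hW2 l hl0 hl1 (n + 1) (by omega)
  choose g hgc hgd hgi hgr hginf using hex
  obtain ⟨e, he⟩ : ∃ e : ℕ → ℝ, e = fun n => 6 * Real.sqrt |l| / (Real.pi * Nat.fib (n + 1)) :=
    ⟨_, rfl⟩
  have hfib : ∀ n, (0 : ℝ) < Nat.fib (n + 1) := fun n => by
    exact_mod_cast Nat.fib_pos.2 (by omega)
  have he0 : ∀ n, 0 ≤ e n := by
    intro n; rw [he]; have := hfib n; positivity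
  have helim : Tendsto e atTop (𝓝 0) := by
    have h1 : Tendsto (fun n : ℕ => (Nat.fib (n + 1) : ℝ)) atTop atTop := by
      apply tendsto_atTop_mono' (f₁ := fun n : ℕ => (n : ℝ)) _ _ tendsto_natCast_atTop_atTop
      filter_upwards [eventually_ge_atTop 5] with n hn
      have h2 := Nat.le_fib_self (n := n + 1) (by omega)
      exact_mod_cast (by omega : n ≤ Nat.fib (n + 1))
    have h2 : Tendsto (fun n : ℕ => Real.pi * (Nat.fib (n + 1) : ℝ)) atTop atTop :=
      h1.const_mul_atTop hpi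
    rw [he]
    exact h2.const_div_atTop (6 * Real.sqrt |l|)
  -- the target on the real line
  obtain ⟨T, hTd⟩ : ∃ T : ℝ → ℂ, T = fun x => ((1 - Om l x / Real.pi : ℝ) : ℂ) +
    ((Ly l x / Real.pi : ℝ) : ℂ) * I := ⟨_, rfl⟩
  have hreal : ∀ (n : ℕ) (x : ℝ), ‖g n x - T x‖ ≤ e n := by
    intro n x
    obtain ⟨t1, t2⟩ := hT (n + 1) x
    have b1 := w4_bound _ _ _ _ (hfib n) t1
    have b2 := w4_bound _ _ _ _ (hfib n) t2
    refine (Complex.norm_le_abs_re_add_abs_im _).trans ?_
    rw [hgr, hTd, he]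
    simp only [Complex.sub_re, Complex.add_re, Complex.mul_re, Complex.ofReal_re,
      Complex.I_re, Complex.ofReal_im, Complex.I_im, Complex.sub_im, Complex.add_im,
      Complex.mul_im, mul_zero, zero_mul, mul_one, sub_zero, add_zero, zero_add]
    have e1 : 1 - Th l (n + 1) x / (Real.pi * (Nat.fib (n + 1) : ℝ)) - (1 - Om l x / Real.pi) =
      -(Th l (n + 1) x / (Real.pi * (Nat.fib (n + 1) : ℝ)) - Om l x / Real.pi) := by ring
    rw [e1, abs_neg]
    have e2 : 6 * Real.sqrt |l| / (Real.pi * (Nat.fib (n + 1) : ℝ)) =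
        3 * Real.sqrt |l| / (Real.pi * (Nat.fib (n + 1) : ℝ)) +
        3 * Real.sqrt |l| / (Real.pi * (Nat.fib (n + 1) : ℝ)) := by ring
    rw [e2]
    exact add_le_add b1 b2
  have hcau : ∀ (n m : ℕ) (z : ℂ), 0 ≤ z.im → ‖g n z - g m z‖ ≤ e n + e m := by
    intro n m z hz
    apply hW3 (fun z => g n z - g m z) (e n + e m) (add_nonneg (he0 n) (he0 m))
      ((hgc n).sub (hgc m)) ((hgd n).sub (hgd m)) _ _ z hz
    · intro x
      have e1 : g n x - g m x = (g n x - T x) - (g m x - T x) := by ring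
      rw [e1]
      exact (norm_sub_le _ _).trans (add_le_add (hreal n x) (hreal m x))
    · have h1 := (hginf n).sub (hginf m)
      rw [sub_self] at h1
      refine h1.congr (fun z => ?_)
      ring
  have hseq : ∀ z : ℂ, 0 ≤ z.im → ∃ w, Tendsto (fun n => g n z) atTop (𝓝 w) := by
    intro z hz
    apply cauchySeq_tendsto_of_complete
    rw [Metric.cauchySeq_iff']
    intro ε hε
    have h1 : ∀ᶠ n in atTop, e n < ε / 2 := helim.eventually_lt_const (by positivity)
    obtain ⟨n0, hn0⟩ := eventually_atTop.1 h1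
    refine ⟨n0, fun n hn => ?_⟩
    rw [dist_eq_norm]
    have h2 := hcau n n0 z hz
    linarith [hn0 n hn, hn0 n0 le_rfl]
  obtain ⟨f, hf⟩ : ∃ f : ℂ → ℂ, ∀ z : ℂ, 0 ≤ z.im → Tendsto (fun n => g n z) atTop (𝓝 (f z)) := by
    classical
    refine ⟨fun z => if h : 0 ≤ z.im then Classical.choose (hseq z h) else 0, fun z hz => ?_⟩
    simp only [dif_pos hz]
    exact Classical.choose_spec (hseq z hz)
  have hfg : ∀ (n : ℕ) (z : ℂ), 0 ≤ z.im → ‖g n z - f z‖ ≤ e n := by
    intro n z hz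
    have h1 : Tendsto (fun m => ‖g n z - g m z‖) atTop (𝓝 ‖g n z - f z‖) :=
      (tendsto_const_nhds.sub (hf z hz)).norm
    have h2 : Tendsto (fun m => e n + e m) atTop (𝓝 (e n + 0)) := tendsto_const_nhds.add helim
    rw [add_zero] at h2
    exact le_of_tendsto_of_tendsto' h1 h2 (fun m => hcau n m z hz)
  have hunif : TendstoUniformlyOn g f atTop {z : ℂ | 0 ≤ z.im} := by
    rw [Metric.tendstoUniformlyOn_iff]
    intro ε hε
    filter_upwards [helim.eventually_lt_const hε] with n hn z hz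
    rw [dist_comm, dist_eq_norm]
    exact (hfg n z hz).trans_lt hn
  have hfc : ContinuousOn f {z : ℂ | 0 ≤ z.im} :=
    hunif.continuousOn (Frequently.of_forall hgc)
  have hfd : DifferentiableOn ℂ f {z : ℂ | 0 < z.im} :=
    ((hunif.mono w4_sub).tendstoLocallyUniformlyOn).differentiableOn
      (Eventually.of_forall hgd) w4_open
  have hfr : ∀ x : ℝ, f x = T x := by
    intro x
    have h1 := hf x (by simp)
    have h2 : Tendsto (fun n => g n x) atTop (𝓝 (T x)) := by
      rw [tendsto_iff_norm_sub_tendsto_zero]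
      exact squeeze_zero (fun n => norm_nonneg _) (fun n => hreal n x) helim
    exact tendsto_nhds_unique h1 h2
  have him0 : ∀ z : ℂ, 0 < z.im → 0 ≤ (f z).im := by
    intro z hz
    have h1 : Tendsto (fun n => (g n z).im) atTop (𝓝 (f z).im) :=
      (Complex.continuous_im.tendsto _).comp (hf z hz.le)
    exact ge_of_tendsto' h1 (fun n => (hgi n z hz).le)
  have him : ∀ z : ℂ, 0 < z.im → 0 < (f z).im := by
    intro z0 hz0
    have han : AnalyticOnNhd ℂ f {z : ℂ | 0 < z.im} := hfd.analyticOnNhd w4_open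
    have hpre : IsPreconnected {z : ℂ | 0 < z.im} := (convex_halfSpace_im_gt 0).isPreconnected
    rcases han.is_constant_or_isOpen hpre with ⟨w, hw⟩ | hopen
    · exfalso
      have hconst : ∀ x : ℝ, f x = w := by
        intro x
        have hx : (x : ℂ) ∈ closure {z : ℂ | 0 < z.im} := by
          rw [Complex.closure_setOfPred_lt_im]; simp
        have : (𝓝[{z : ℂ | 0 < z.im}] (x : ℂ)).NeBot := mem_closure_iff_nhdsWithin_neBot.1 hx
        have h1 : Tendsto f (𝓝[{z : ℂ | 0 < z.im}] (x : ℂ)) (𝓝 (f x)) :=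
          (hfc x (by simp)).mono_left (nhdsWithin_mono _ w4_sub)
        have h2 : Tendsto f (𝓝[{z : ℂ | 0 < z.im}] (x : ℂ)) (𝓝 w) := by
          apply (tendsto_const_nhds (x := w)).congr'
          filter_upwards [self_mem_nhdsWithin] with z hz
          exact (hw z hz).symm
        exact tendsto_nhds_unique h1 h2
      have h1 := congrArg Complex.re ((hfr (2 + |l|)).symm.trans (hconst (2 + |l|)))
      have h2 := congrArg Complex.re ((hfr (-(2 + |l|))).symm.trans (hconst (-(2 + |l|))))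
      rw [hTd] at h1 h2
      simp only [Complex.add_re, Complex.mul_re, Complex.ofReal_re,
        Complex.I_re, Complex.ofReal_im, Complex.I_im, mul_zero, mul_one, sub_zero,
        add_zero] at h1 h2
      rw [hOmR _ le_rfl] at h1
      rw [hOmL _ le_rfl, div_self hpi.ne'] at h2
      rw [← h2] at h1
      simp at h1
    · have ho := hopen {z : ℂ | 0 < z.im} subset_rfl w4_open
      have hmem : f z0 ∈ f '' {z : ℂ | 0 < z.im} := ⟨z0, hz0, rfl⟩
      obtain ⟨ε, hε, hball⟩ := Metric.isOpen_iff.1 ho _ hmem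
      have hmem2 : f z0 - ((ε / 2 : ℝ) : ℂ) * I ∈ Metric.ball (f z0) ε := by
        rw [Metric.mem_ball, dist_eq_norm]
        have : f z0 - ((ε / 2 : ℝ) : ℂ) * I - f z0 = -(((ε / 2 : ℝ) : ℂ) * I) := by ring
        rw [this, norm_neg, norm_mul, Complex.norm_I, Complex.norm_real, Real.norm_eq_abs,
          abs_of_pos (by positivity)]
        linarith
      obtain ⟨z1, hz1, hz1'⟩ := hball hmem2
      have h1 := him0 z1 hz1
      rw [hz1'] at h1
      simp only [Complex.sub_im, Complex.mul_im, Complex.ofReal_re, Complex.I_im,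
        Complex.ofReal_im, Complex.I_re, mul_one, mul_zero, add_zero] at h1
      linarith
  refine ⟨f, hfc, hfd, him, ?_, ?_⟩
  · intro x
    rw [hfr x, hTd]
  · obtain ⟨A, hA⟩ := w4_growth (g 0) (hgc 0) (hginf 0)
    refine ⟨A + e 0, fun z hz => ?_⟩
    have h1 : ‖f z‖ ≤ ‖g 0 z‖ + ‖g 0 z - f z‖ := by
      have : f z = g 0 z - (g 0 z - f z) := by ring
      conv_lhs => rw [this]
      exact norm_sub_le _ _
    linarith [hA z hz, hfg 0 z hz]

end

end Pool.Agent.Helper36.CV
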